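import Pool.Agent.N582.PTMain

/-!
# The exploration of periodic temporal trees is NP-hard if the period is part of the input

The reduction is from 3SAT. For `n` variables and `m` clauses the tree is a comb: a path with
`N = n + m + 1` vertices, each of which is joined to one leaf. The edges of the path are always
present, and the edge of a leaf is present at the times `N τ` for some labels `τ`, so that between
two labels the agent can move from each leaf to each other leaf. The period is larger than the
bound for the cover time.

* The leaf of the variable `v` has three labels `A < B < C`. The agent has to spend the time from `A`
  to `B`, or the time from `B` to `C`, in this leaf: the literal `v`, or its negation, is false. The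
  intervals of the variables follow one another.
* The leaf of the clause `j` has two consecutive labels between `A` and `B` for each variable `v`
  which occurs in it positively, and between `B` and `C` for each `v` which occurs in it negatively;
  these slots are different for different clauses. So it can be visited if and only if one of the
  literals of the clause is true.
* The last leaf has only one label, at the very end. So the agent has to leave all other leaves.
-/

set_option autoImplicit false

namespace Pool.Agent.Results.MP_ce2681_lc.BoundedDegreeHard

open Pool.Agent.NPC Pool.Agent.N582.PT

/-- DMVP (single agent, periodic temporal trees, the period being part of the input) is NP-hard,
also for trees of maximum degree at most `d`, for every `d ≥ 3`. -/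
theorem result : NPHardP DMVP ∧ ∀ d, 3 ≤ d → NPHardP (DMVPDeg d) :=
  ⟨hardI_dmvp.toNPHardP, fun _ hd => (hardI_dmvpDeg hd).toNPHardP⟩

end Pool.Agent.Results.MP_ce2681_lc.BoundedDegreeHard
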